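import Pool.Agent.Helper75.FU.StG

set_option autoImplicit false

namespace Pool.Agent.Helper6.FU

open Pool.Agent.Helper91.GU Pool.Agent.Helper75.FU

universe u

theorem hG5 (hG4 : StG4.{u}) : StG5.{u} := by
  intro A _ p s hp hsp hs v hv e₀
  have hcop : Nat.Coprime p (s + 1).factorial :=
    (Nat.Prime.coprime_iff_not_dvd hp).2 (fun h => by
      have := (hp.dvd_factorial).1 h
      omega)
  have h1 : p ^ (s + 1).factorial.totient ≡ 1 [MOD (s + 1).factorial] := Nat.ModEq.pow_totient hcop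
  have hpos : 0 < (s + 1).factorial.totient := Nat.totient_pos.2 (Nat.factorial_pos _)
  refine ⟨(e₀ + 1) * (s + 1).factorial.totient, ?_, ?_⟩
  · calc e₀ ≤ (e₀ + 1) * 1 := by omega
      _ ≤ (e₀ + 1) * (s + 1).factorial.totient := Nat.mul_le_mul_left _ hpos
  · refine hG4 A s _ hs ?_ v hv
    have h2 : p ^ ((e₀ + 1) * (s + 1).factorial.totient) ≡ 1 [MOD (s + 1).factorial] := by
      rw [mul_comm, pow_mul]
      simpa using h1.pow (e₀ + 1)
    simpa using h2.pow (s + 2)

end Pool.Agent.Helper6.FU
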