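import Pool.Agent.Helper75.FU.StP

set_option autoImplicit false

namespace Pool.Agent.Helper6.FU

open Polynomial Pool.Agent.Helper91.GU Pool.Agent.Helper75.FU

universe u

/-- the map `X_i ↦ X_i T` -/
noncomputable def Gam (n : ℕ) (R : Type u) [CommRing R] :
    MvPolynomial (Fin n) R →+* (MvPolynomial (Fin n) R)[X] :=
  MvPolynomial.eval₂Hom ((Polynomial.C : MvPolynomial (Fin n) R →+* _).comp MvPolynomial.C)
    (fun i => Polynomial.C (MvPolynomial.X i) * Polynomial.X)

theorem gam_one (n : ℕ) (R : Type u) [CommRing R] (f : MvPolynomial (Fin n) R) :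
    (Gam n R f).eval 1 = f := by
  have h : (Polynomial.evalRingHom (1 : MvPolynomial (Fin n) R)).comp (Gam n R)
      = RingHom.id _ := by
    apply MvPolynomial.ringHom_ext
    · intro r
      simp [Gam]
    · intro i
      simp [Gam]
  exact congrArg (fun g : MvPolynomial (Fin n) R →+* MvPolynomial (Fin n) R => g f) h

theorem gam_zero (n : ℕ) (R : Type u) [CommRing R] (f : MvPolynomial (Fin n) R) :
    (Gam n R f).eval 0 = MvPolynomial.C (MvPolynomial.constantCoeff f) := by
  have h : (Polynomial.evalRingHom (0 : MvPolynomial (Fin n) R)).comp (Gam n R)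
      = (MvPolynomial.C : R →+* MvPolynomial (Fin n) R).comp MvPolynomial.constantCoeff := by
    apply MvPolynomial.ringHom_ext
    · intro r
      simp [Gam]
    · intro i
      simp [Gam]
  exact congrArg (fun g : MvPolynomial (Fin n) R →+* MvPolynomial (Fin n) R => g f) h

/-- the map `X_i ↦ X_i T` from the local coefficient ring -/
noncomputable def Psl (n : ℕ) {R' L : Type u} [CommRing R'] [CommRing L] (loc : R' →+* L)
    (x : Fin n → L) : MvPolynomial (Fin n) R' →+* L[X] :=
  MvPolynomial.eval₂Hom ((Polynomial.C : L →+* L[X]).comp loc)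
    (fun i => Polynomial.C (x i) * Polynomial.X)

theorem psl_map (n : ℕ) {R R' L : Type u} [CommRing R] [CommRing R'] [CommRing L]
    (ρ : R →+* R') (loc : R' →+* L) (al : MvPolynomial (Fin n) R →+* L)
    (h : ∀ r, loc (ρ r) = al (MvPolynomial.C r)) (f : MvPolynomial (Fin n) R) :
    Psl n loc (fun i => al (MvPolynomial.X i)) (MvPolynomial.map ρ f)
      = (Gam n R f).map al := by
  have h1 : (Psl n loc (fun i => al (MvPolynomial.X i))).comp (MvPolynomial.map ρ)
      = (Polynomial.mapRingHom al).comp (Gam n R) := by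
    apply MvPolynomial.ringHom_ext
    · intro r
      simp [Gam, Psl, h]
    · intro i
      simp [Gam, Psl]
  exact congrArg (fun g : MvPolynomial (Fin n) R →+* L[X] => g f) h1

theorem dim_le {R : Type u} [CommRing R] (𝔭 : Ideal R) [𝔭.IsPrime] :
    ringKrullDim (Localization.AtPrime 𝔭) ≤ ringKrullDim R := by
  rw [IsLocalization.AtPrime.ringKrullDim_eq_height 𝔭 (Localization.AtPrime 𝔭)]
  exact Ideal.height_le_ringKrullDim_of_ne_top (Ideal.IsPrime.ne_top ‹_›)

theorem mp_row {A B : Type u} [CommRing A] [CommRing B] (φ : A →+* B) (r : ℕ) :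
    mp φ (row (1 : A) (0 : Fin r → A)) = row 1 0 := by
  funext j
  rcases j with j | j <;> simp [mp, row]

theorem hN3 (hA5 : Pool.Agent.Helper91.GU.StA5.{u}) (hB7 : Pool.Agent.Helper91.GU.StB7.{u})
    (hH4 : Pool.Agent.Helper91.GU.StH4.{u}) : StN3.{u} := by
  intro s n hs hloc R _ _ hdim hunit v hv
  have claim : REq (fun j => Gam n R (v j)) (fun j => C ((Gam n R (v j)).eval 0)) := by
    apply hA5
    intro 𝔫 h𝔫
    have hpr : 𝔫.IsPrime := h𝔫.isPrime
    let 𝔭 : Ideal R := 𝔫.comap (MvPolynomial.C : R →+* MvPolynomial (Fin n) R)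
    have h𝔭 : 𝔭.IsPrime := Ideal.comap_isPrime _ _
    let loc : Localization.AtPrime 𝔭 →+* Localization.AtPrime 𝔫 :=
      Localization.localRingHom 𝔭 𝔫 (MvPolynomial.C : R →+* MvPolynomial (Fin n) R) rfl
    have hloc' : ∀ r, loc (algebraMap R (Localization.AtPrime 𝔭) r)
        = algebraMap (MvPolynomial (Fin n) R) (Localization.AtPrime 𝔫) (MvPolynomial.C r) :=
      fun r => Localization.localRingHom_to_map 𝔭 𝔫 _ rfl r
    have hNoe : IsNoetherianRing (Localization.AtPrime 𝔭) :=
      IsLocalization.isNoetherianRing 𝔭.primeCompl _ inferInstance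
    have hd : ringKrullDim (Localization.AtPrime 𝔭) ≤ (2 * s : ℕ) := (dim_le 𝔭).trans hdim
    have hu : IsUnit ((s + 1).factorial : Localization.AtPrime 𝔭) := by
      have := hunit.map (algebraMap R (Localization.AtPrime 𝔭))
      simpa using this
    have b1 := ((hB7 _ _ (MvPolynomial.map (σ := Fin n)
      (algebraMap R (Localization.AtPrime 𝔭)))).1 (Unit ⊕ Fin (s + 1))).2.2.2.2.2.2 v hv
    have b2 := hloc (Localization.AtPrime 𝔭) hd hu _ b1
    have b3 := ((hB7 _ _ (Psl n loc (fun i => algebraMap (MvPolynomial (Fin n) R)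
      (Localization.AtPrime 𝔫) (MvPolynomial.X i)))).1 (Unit ⊕ Fin (s + 1))).2.2.2.2.2.1 _ _ b2
    rw [mp_row] at b3
    have e1 : mp (Psl n loc (fun i => algebraMap (MvPolynomial (Fin n) R)
        (Localization.AtPrime 𝔫) (MvPolynomial.X i)))
        (mp (MvPolynomial.map (σ := Fin n) (algebraMap R (Localization.AtPrime 𝔭))) v)
        = fun j => (Gam n R (v j)).map (algebraMap _ (Localization.AtPrime 𝔫)) := by
      funext j
      exact psl_map n _ loc _ hloc' (v j)
    rw [e1] at b3
    let al0 : MvPolynomial (Fin n) R →+* Localization.AtPrime 𝔫 :=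
      (algebraMap (MvPolynomial (Fin n) R) (Localization.AtPrime 𝔫)).comp
        ((MvPolynomial.C : R →+* MvPolynomial (Fin n) R).comp MvPolynomial.constantCoeff)
    have c1 := ((hB7 _ _ al0).1 (Unit ⊕ Fin (s + 1))).2.2.2.2.2.2 v hv
    have e2 : mp al0 v = row (mp al0 v (Sum.inl ())) (fun i => mp al0 v (Sum.inr i)) := by
      funext j
      rcases j with j | j <;> rfl
    have c2 : REq (mp al0 v) (row 1 0) := by
      rw [e2]
      rw [e2] at c1
      exact hH4 _ _ _ _ c1
    have c3 := ((hB7 (Localization.AtPrime 𝔫) (Localization.AtPrime 𝔫)[X] Polynomial.C).1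
      (Unit ⊕ Fin (s + 1))).2.2.2.2.2.1 _ _ c2
    rw [mp_row] at c3
    have e3 : mp (Polynomial.C : Localization.AtPrime 𝔫 →+* (Localization.AtPrime 𝔫)[X]) (mp al0 v)
        = fun j => C (algebraMap (MvPolynomial (Fin n) R) (Localization.AtPrime 𝔫)
          ((Gam n R (v j)).eval 0)) := by
      funext j
      rw [gam_zero]
      rfl
    rw [e3] at c3
    have B := (hB7 (Localization.AtPrime 𝔫)[X] _ (RingHom.id _)).1 (Unit ⊕ Fin (s + 1))
    exact B.2.2.1 _ _ _ b3 (B.2.1 _ _ c3)
  have f := ((hB7 _ _ (Polynomial.evalRingHom (1 : MvPolynomial (Fin n) R))).1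
    (Unit ⊕ Fin (s + 1))).2.2.2.2.2.1 _ _ claim
  have e4 : mp (Polynomial.evalRingHom (1 : MvPolynomial (Fin n) R)) (fun j => Gam n R (v j))
      = v := by
    funext j
    exact gam_one n R (v j)
  have e5 : mp (Polynomial.evalRingHom (1 : MvPolynomial (Fin n) R))
      (fun j => C ((Gam n R (v j)).eval 0))
      = fun j => MvPolynomial.C (MvPolynomial.constantCoeff (v j)) := by
    funext j
    change (C ((Gam n R (v j)).eval 0)).eval 1 = _
    rw [eval_C, gam_zero]
  rw [e4, e5] at f
  exact f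

end Pool.Agent.Helper6.FU
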